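import Pool.Agent.HB.E.Basic

/-!
# HB-E2-PolyLatt: the explicit frame spans the lattice of values of polynomials

PLAN.  `←`: let `f ∈ R[X]` with the two conditions.  Divide by the monic polynomial
`m = ∏ i, (X - u i)` of degree `5` (`Polynomial.modByMonic`): we may assume `deg f < 5`
(`f (u i)` does not change).  Divide by `(X - u 0)(X - u 2)`: `f = (X - u 0)(X - u 2) g + r`,
`deg g < 3`, `deg r < 2`.  `r = A (X - u 2) + B (X - u 0)` with
`A = f (u 0) / (u 0 - u 2) ∈ δ0 R`, `B = f (u 2) / (u 2 - u 0) ∈ δ2 R` (evaluate at two points /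
compare coefficients; `(u 0 - u 2)⁻¹ ∈ R`).  And `g = a + b (X - u 1) + c (X - u 1)(X - u 4)` with
`a, b, c ∈ R` (divide twice by monic polynomials).  So the coefficients are
`(c, b, a, A/δ0, B/δ2)`.
`→`: the polynomial `c f₀ + b f₁ + a f₂ + A' f₃ + B' f₄`, with
`f₀ = (X-u0)(X-u1)(X-u2)(X-u4)`, `f₁ = (X-u0)(X-u1)(X-u2)`, `f₂ = (X-u0)(X-u2)`,
`f₃ = δ0 (X-u2)`, `f₄ = δ2 (X-u0)`; its values at `u 0`, `u 2` are `δ0 A' (u0-u2)`,
`δ2 B' (u2 - u0)`.
-/

set_option autoImplicit false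

open scoped Matrix
open Polynomial

namespace HB.E2

variable {L : Type} [Field L]

/-- The explicit frame. -/
def fr (n u : Fin 5 → L) (δ0 δ2 : L) : Matrix (Fin 5) (Fin 5) L :=
  Matrix.of fun i j => n i * ![(u i - u 0) * (u i - u 1) * (u i - u 2) * (u i - u 4),
    (u i - u 0) * (u i - u 1) * (u i - u 2), (u i - u 0) * (u i - u 2), δ0 * (u i - u 2),
    δ2 * (u i - u 0)] j

private theorem step (R : Subring L) (f : R[X]) {a : L} (ha : a ∈ R) :
    ∃ g : R[X], f.eval₂ R.subtype a ∈ R ∧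
      ∀ z : L, f.eval₂ R.subtype z = f.eval₂ R.subtype a + (z - a) * g.eval₂ R.subtype z := by
  obtain ⟨g, hg⟩ := Polynomial.X_sub_C_dvd_sub_C_eval (a := (⟨a, ha⟩ : R)) (p := f)
  have h1 : f.eval₂ R.subtype a = ((f.eval (⟨a, ha⟩ : R) : R) : L) :=
    Polynomial.eval₂_at_apply (p := f) R.subtype (⟨a, ha⟩ : R)
  refine ⟨g, ?_, fun z => ?_⟩
  · rw [h1]
    exact (f.eval (⟨a, ha⟩ : R)).2
  · have h2 := congrArg (fun q : R[X] => q.eval₂ R.subtype z) hg
    simp only [eval₂_sub, eval₂_mul, eval₂_X, eval₂_C, Subring.coe_subtype] at h2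
    rw [h1]
    linear_combination h2

theorem mem_latt_fr (R : Subring L) (n u : Fin 5 → L) (δ0 δ2 : L) (hu : ∀ i, u i ∈ R)
    (h0 : δ0 ∈ R) (h2 : δ2 ∈ R) (h00 : δ0 ≠ 0) (h20 : δ2 ≠ 0) (hne : u 0 ≠ u 2)
    (hunit : (u 0 - u 2)⁻¹ ∈ R) (x : Fin 5 → L) :
    x ∈ latt R (fr n u δ0 δ2) ↔ ∃ f : R[X],
      (∃ c ∈ R, f.eval₂ R.subtype (u 0) = δ0 * c) ∧
      (∃ c ∈ R, f.eval₂ R.subtype (u 2) = δ2 * c) ∧
      ∀ i, x i = n i * f.eval₂ R.subtype (u i) := by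
  have hfr : ∀ (c : Fin 5 → L) (i : Fin 5), (fr n u δ0 δ2 *ᵥ c) i
      = n i * ((u i - u 0) * (u i - u 1) * (u i - u 2) * (u i - u 4) * c 0
        + (u i - u 0) * (u i - u 1) * (u i - u 2) * c 1 + (u i - u 0) * (u i - u 2) * c 2
        + δ0 * (u i - u 2) * c 3 + δ2 * (u i - u 0) * c 4) := by
    intro c i
    simp only [fr, Matrix.mulVec, dotProduct, Matrix.of_apply, Fin.sum_univ_five]
    simp only [Matrix.cons_val]
    ring
  have hne' : u 0 - u 2 ≠ 0 := sub_ne_zero.2 hne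
  constructor
  · rintro ⟨c, hc, rfl⟩
    have h02 : u 0 - u 2 ∈ R := R.sub_mem (hu 0) (hu 2)
    have h20' : u 2 - u 0 ∈ R := R.sub_mem (hu 2) (hu 0)
    let U : Fin 5 → R := fun i => ⟨u i, hu i⟩
    let c' : Fin 5 → R := fun i => ⟨c i, hc i⟩
    let d0 : R := ⟨δ0, h0⟩
    let d2 : R := ⟨δ2, h2⟩
    let f : R[X] := (X - C (U 0)) * (X - C (U 1)) * (X - C (U 2)) * (X - C (U 4)) * C (c' 0)
        + (X - C (U 0)) * (X - C (U 1)) * (X - C (U 2)) * C (c' 1)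
        + (X - C (U 0)) * (X - C (U 2)) * C (c' 2)
        + C d0 * (X - C (U 2)) * C (c' 3) + C d2 * (X - C (U 0)) * C (c' 4)
    have hf : ∀ z : L, f.eval₂ R.subtype z
        = (z - u 0) * (z - u 1) * (z - u 2) * (z - u 4) * c 0
        + (z - u 0) * (z - u 1) * (z - u 2) * c 1 + (z - u 0) * (z - u 2) * c 2
        + δ0 * (z - u 2) * c 3 + δ2 * (z - u 0) * c 4 := by
      intro z
      simp only [f, eval₂_add, eval₂_mul, eval₂_sub, eval₂_X, eval₂_C, Subring.coe_subtype, U, c',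
        d0, d2]
    refine ⟨f, ⟨(u 0 - u 2) * c 3, R.mul_mem h02 (hc 3), ?_⟩,
      ⟨(u 2 - u 0) * c 4, R.mul_mem h20' (hc 4), ?_⟩, fun i => ?_⟩
    · rw [hf]
      ring
    · rw [hf]
      ring
    · rw [hf, hfr]
  · rintro ⟨f, ⟨a, ha, hfa⟩, ⟨b, hb, hfb⟩, hx⟩
    obtain ⟨f1, r0, e0⟩ := step R f (hu 0)
    obtain ⟨f2, r1, e1⟩ := step R f1 (hu 2)
    obtain ⟨f3, r2, e2⟩ := step R f2 (hu 1)
    obtain ⟨f4, r3, e3⟩ := step R f3 (hu 4)
    obtain ⟨f5, r4, e4⟩ := step R f4 (hu 3)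
    have hB : (u 2 - u 0)⁻¹ ∈ R := by
      rw [← neg_sub, inv_neg]
      exact R.neg_mem hunit
    refine ⟨![f4.eval₂ R.subtype (u 3), f3.eval₂ R.subtype (u 4), f2.eval₂ R.subtype (u 1),
      a * (u 0 - u 2)⁻¹, b * (u 2 - u 0)⁻¹], ?_, ?_⟩
    · intro j
      fin_cases j
      · exact r4
      · exact r3
      · exact r2
      · exact R.mul_mem ha hunit
      · exact R.mul_mem hb hB
    · have hz : ∀ i, (u i - u 0) * (u i - u 2) * (u i - u 1) * (u i - u 4) * (u i - u 3) = 0 := by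
        intro i
        fin_cases i <;> simp
      funext i
      rw [hfr, hx i]
      simp only [Matrix.cons_val]
      congr 1
      have E0 := e0 (u i)
      have E1 := e1 (u i)
      have E2 := e2 (u i)
      have E3 := e3 (u i)
      have E4 := e4 (u i)
      have E5 := e0 (u 2)
      have hne2 : u 2 - u 0 ≠ 0 := sub_ne_zero.2 hne.symm
      have h3 : δ0 * (u i - u 2) * (a * (u 0 - u 2)⁻¹)
          = (u i - u 2) * (u 0 - u 2)⁻¹ * f.eval₂ R.subtype (u 0) := by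
        rw [hfa]
        ring
      have h4 : δ2 * (u i - u 0) * (b * (u 2 - u 0)⁻¹)
          = (u i - u 0) * (u 2 - u 0)⁻¹ * f.eval₂ R.subtype (u 2) := by
        rw [hfb]
        ring
      rw [h3, h4, E5, E0, E1, E2, E3, E4]
      have h5 : (u i - u 2) * (u 0 - u 2)⁻¹ = 1 - (u i - u 0) * (u 2 - u 0)⁻¹ := by
        field_simp
        ring
      have h6 : (u 2 - u 0)⁻¹ * (u 2 - u 0) = 1 := inv_mul_cancel₀ hne2
      rw [h5]
      linear_combination (f5.eval₂ R.subtype (u i)) * hz i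
        - (u i - u 0) * f1.eval₂ R.subtype (u 2) * h6

end HB.E2
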