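import Pool.Agent.HB.Bun

/-!
# HB-E2-Alg: function fields of surfaces are algebraic over each other

`X : Surf k K`, `Y : Surf k L`, `K ≤ L`.

PLAN.  `Algebra.trdeg k L = 2`: `![Y.s, Y.t]` is algebraically independent (`Y.indep`) and `L` is
algebraic (finite) over `IntermediateField.adjoin k {s,t}`, so it is a transcendence basis
(`IsTranscendenceBasis`, `AlgebraicIndependent.isTranscendenceBasis_iff…`, `IsTranscendenceBasis.cardinalMk_eq_trdeg`
…); same for `K`.  Then `![X.s, X.t]`, mapped to `L`, is algebraically independent over `k` with two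
elements in a field of transcendence degree two, hence a transcendence basis of `L`, so `L` is
algebraic over `k(X.s, X.t)`, hence over `K`.
(Or `Algebra.trdeg_add_eq`: `trdeg k K + trdeg K L = trdeg k L`, and `trdeg = 0` means algebraic.)
-/

set_option autoImplicit false

namespace HB.E2

variable {k K L : Type} [Field k] [Field K] [Field L] [Algebra k K] [Algebra k L] [Algebra K L]
  [IsScalarTower k K L]

omit [Field K] [Algebra k K] [Algebra K L] [IsScalarTower k K L] in
private theorem hbalg_basis (Y : Surf k L) : IsTranscendenceBasis k ![Y.s, Y.t] := by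
  have hr : Set.range ![Y.s, Y.t] = {Y.s, Y.t} := by
    simp only [Matrix.range_cons, Matrix.range_empty, Set.union_empty]
    rfl
  have h1 : Algebra.IsAlgebraic (Algebra.adjoin k (Set.range ![Y.s, Y.t])) L := by
    rw [hr]
    have := Y.fin
    exact IntermediateField.isAlgebraic_adjoin_iff_top.1 (Algebra.IsAlgebraic.of_finite _ _)
  exact Y.indep.isTranscendenceBasis_iff_isAlgebraic.2 h1

theorem isAlgebraic_of_surf (X : Surf k K) (Y : Surf k L) : Algebra.IsAlgebraic K L := by
  have hY := (hbalg_basis Y).cardinalMk_eq_trdeg
  have hinj : Function.Injective (IsScalarTower.toAlgHom k K L) :=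
    (algebraMap K L).injective
  have h1 : AlgebraicIndependent k ((IsScalarTower.toAlgHom k K L) ∘ ![X.s, X.t]) :=
    X.indep.map hinj.injOn
  have h2 : IsTranscendenceBasis k ((IsScalarTower.toAlgHom k K L) ∘ ![X.s, X.t]) :=
    h1.isTranscendenceBasis_of_trdeg_le_of_finite (le_of_eq hY.symm)
  exact (h2.isAlgebraic_iff (S := K)).2 fun i => isAlgebraic_algebraMap _

end HB.E2
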