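import Pool.Agent.HB.E2.Centre

/-!
# HB-E2-AtDiv: the pulled back lattice at a prime divisor of `Y`

PLAN.  Let `R = valBelow K C`; `P.1.toSubring ≤ R` (`le_valBelow`).
Claim: for every `Q' ∈ C` and `P'` with `Dom Q' P'`: `latt O_C (g P' mapped) = latt O_C (g P mapped)`.
By `pt_cases` (`valBelow_ne_top`, constants: `algebraMap k K c ∈ P.1`) either `P = P'` or there is
`V : X.PD` through both with `V.1.toSubring = R.toSubring`; then `hglue` and base change from `R` to
`O_C`: if `latt R A = latt R B` then every column of `A` is `B *ᵥ c` with `c` in `R`, so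
`A = B * N`, `B = A * N'` with `N, N'` over `R`; map to `L`.
`⊆`: `AddSubgroup.closure_induction` twice: `x = c • e`, `e ∈ pull Y E Q'`, i.e. in the closure of the
`c' * algebraMap (e' i)` with `e' ∈ latt O_{P'} (g P')`; everything lands in
`latt O_C ((g P').map _)` which is an additive subgroup stable under `O_C`
(note `Q'.1.toSubring ≤ C.1.toSubring`).
`⊇`: `x = (g P).map _ *ᵥ c = ∑ j, c j • (column j)`, and the `j`-th column of `g P` is in `E P`
(`c = Pi.single j 1`), so its image is in `pull Y E Q`.
-/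

set_option autoImplicit false

open scoped Matrix

namespace HB.E2

open Surf

variable {k K L : Type} [Field k] [CharZero k] [IsAlgClosed k] [Field K] [Field L] [Algebra k K]
  [Algebra k L] [Algebra K L] [IsScalarTower k K L]

omit [CharZero k] [IsAlgClosed k] [Field k] [Algebra k K] [Algebra k L] [IsScalarTower k K L] in
private theorem latt_mono {r : ℕ} (R : Subring K) (R' : Subring L)
    (hR : ∀ x ∈ R, algebraMap K L x ∈ R') (A B : Matrix (Fin r) (Fin r) K)
    (h : latt R A ⊆ latt R B) :
    latt R' (A.map (algebraMap K L)) ⊆ latt R' (B.map (algebraMap K L)) := by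
  have h1 : ∀ j : Fin r, ∃ c : Fin r → K, (∀ i, c i ∈ R) ∧ A *ᵥ (Pi.single j 1) = B *ᵥ c := by
    intro j
    refine h ⟨Pi.single j 1, fun i => ?_, rfl⟩
    by_cases hij : i = j
    · subst hij
      rw [Pi.single_eq_same]
      exact R.one_mem
    · rw [Pi.single_eq_of_ne hij]
      exact R.zero_mem
  choose N hN hAN using h1
  rintro x ⟨c, hc, rfl⟩
  refine ⟨((Matrix.of fun i j => N j i).map (algebraMap K L)) *ᵥ c, fun i => ?_, ?_⟩
  · unfold Matrix.mulVec dotProduct
    refine R'.sum_mem fun j _ => R'.mul_mem ?_ (hc j)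
    exact hR _ (hN j i)
  · rw [Matrix.mulVec_mulVec, ← Matrix.map_mul]
    congr 2
    ext i j
    have h2 := congrFun (hAN j) i
    rw [Matrix.mulVec_single_one] at h2
    exact h2

omit [CharZero k] [IsAlgClosed k] [Field k] [Algebra k K] [Algebra k L] [IsScalarTower k K L]
  [Field K] [Algebra K L] in
private theorem latt_add {r : ℕ} (R : Subring L) (A : Matrix (Fin r) (Fin r) L) {x y : Fin r → L}
    (hx : x ∈ latt R A) (hy : y ∈ latt R A) : x + y ∈ latt R A := by
  obtain ⟨c, hc, rfl⟩ := hx
  obtain ⟨d, hd, rfl⟩ := hy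
  exact ⟨c + d, fun j => R.add_mem (hc j) (hd j), (Matrix.mulVec_add A c d).symm⟩

omit [CharZero k] [IsAlgClosed k] [Field k] [Algebra k K] [Algebra k L] [IsScalarTower k K L]
  [Field K] [Algebra K L] in
private theorem latt_smul {r : ℕ} (R : Subring L) (A : Matrix (Fin r) (Fin r) L) {x : Fin r → L}
    {a : L} (ha : a ∈ R) (hx : x ∈ latt R A) : a • x ∈ latt R A := by
  obtain ⟨c, hc, rfl⟩ := hx
  refine ⟨a • c, fun j => R.mul_mem ha (hc j), (Matrix.mulVec_smul A a c).symm⟩

/-- the lattice as an additive subgroup -/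
private def lattG {r : ℕ} (R : Subring L) (A : Matrix (Fin r) (Fin r) L) :
    AddSubgroup (Fin r → L) where
  carrier := latt R A
  add_mem' := fun hx hy => latt_add R A hx hy
  zero_mem' := ⟨0, fun _ => R.zero_mem, (Matrix.mulVec_zero A).symm⟩
  neg_mem' := fun {x} hx => by
    have h := latt_smul R A (R.neg_mem R.one_mem) hx
    rwa [neg_one_smul] at h

theorem atDiv_pull {X : Surf k K} {Y : Surf k L} {r : ℕ} (E : X.Pt → Set (Fin r → K))
    (g : X.Pt → Matrix (Fin r) (Fin r) K) (hE : ∀ P, E P = latt P.1.toSubring (g P))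
    (hglue : ∀ (V : X.PD) (P P' : X.Pt), On P V → On P' V →
      latt V.1.toSubring (g P) = latt V.1.toSubring (g P'))
    (C : Y.PD) (Q : Y.Pt) (P : X.Pt) (hQ : On Q C) (hP : Dom Q P) :
    (atDiv (pull Y E) C : Set (Fin r → L)) =
      latt C.1.toSubring ((g P).map (algebraMap K L)) := by
  have hk : ∀ c : k, algebraMap k K c ∈ valBelow K C := by
    intro c
    have h1 : algebraMap k K c ∈ P.1.toSubring := P.algebraMap_mem c
    exact le_valBelow C Q hQ P hP h1
  have claim : ∀ (Q' : Y.Pt) (P' : X.Pt), On Q' C → Dom Q' P' →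
      latt C.1.toSubring ((g P').map (algebraMap K L)) =
        latt C.1.toSubring ((g P).map (algebraMap K L)) := by
    intro Q' P' hQ' hP'
    rcases pt_cases X (valBelow K C) hk (valBelow_ne_top X C) P' P
      (le_valBelow C Q' hQ' P' hP') (le_valBelow C Q hQ P hP) with h | ⟨V, h1, h2, h3⟩
    · rw [h]
    · have h4 := hglue V P' P h1 h2
      have h5 : ∀ x ∈ V.1.toSubring, algebraMap K L x ∈ C.1.toSubring := by
        intro x hx
        rw [h3] at hx
        exact hx
      exact Set.Subset.antisymm (latt_mono _ _ h5 _ _ h4.subset) (latt_mono _ _ h5 _ _ h4.symm.subset)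
  apply Set.Subset.antisymm
  · have h1 : atDiv (pull Y E) C ≤ lattG C.1.toSubring ((g P).map (algebraMap K L)) := by
      unfold atDiv
      rw [AddSubgroup.closure_le]
      rintro x ⟨Q', hQ', e, he, c, hc, rfl⟩
      refine latt_smul _ _ hc ?_
      have h2 : AddSubgroup.closure {x : Fin r → L | ∃ P : X.Pt, Dom Q' P ∧ ∃ e ∈ E P,
          ∃ c ∈ Q'.1.toSubring, x = fun i => c * algebraMap K L (e i)} ≤
          lattG C.1.toSubring ((g P).map (algebraMap K L)) := by
        rw [AddSubgroup.closure_le]
        rintro y ⟨P', hP', e', he', c', hc', rfl⟩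
        change _ ∈ latt C.1.toSubring ((g P).map (algebraMap K L))
        rw [← claim Q' P' hQ' hP']
        rw [hE P'] at he'
        obtain ⟨d, hd, rfl⟩ := he'
        have h3 : (fun i => c' * algebraMap K L ((g P' *ᵥ d) i)) =
            c' • ((g P').map (algebraMap K L) *ᵥ fun i => algebraMap K L (d i)) := by
          funext i
          simp [Matrix.mulVec, dotProduct, map_sum, map_mul]
        rw [h3]
        refine latt_smul _ _ (hQ' hc') ⟨_, fun j => ?_, rfl⟩
        exact le_valBelow C Q' hQ' P' hP' (hd j)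
      exact h2 he
    exact h1
  · rintro x ⟨c, hc, rfl⟩
    have h1 : (g P).map (algebraMap K L) *ᵥ c =
        ∑ j, c j • (fun i => (1 : L) * algebraMap K L ((g P *ᵥ (Pi.single j 1)) i)) := by
      funext i
      rw [Finset.sum_apply]
      simp only [Matrix.mulVec_single_one, Matrix.col_apply, one_mul, Pi.smul_apply, smul_eq_mul]
      unfold Matrix.mulVec dotProduct
      refine Finset.sum_congr rfl fun j _ => ?_
      exact mul_comm _ _
    rw [h1]
    refine AddSubgroup.sum_mem _ fun j _ => AddSubgroup.subset_closure ?_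
    refine ⟨Q, hQ, _, AddSubgroup.subset_closure ⟨P, hP, g P *ᵥ (Pi.single j 1), ?_, 1,
      Q.1.toSubring.one_mem, rfl⟩, c j, hc j, rfl⟩
    rw [hE P]
    refine ⟨Pi.single j 1, fun i => ?_, rfl⟩
    by_cases hij : i = j
    · subst hij
      rw [Pi.single_eq_same]
      exact P.1.toSubring.one_mem
    · rw [Pi.single_eq_of_ne hij]
      exact P.1.toSubring.zero_mem

end HB.E2
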