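import Pool.Agent.HB.E2.Alg
import Pool.Agent.HB.A.LocD
import Pool.Agent.HB.A.Dv

/-!
# HB-E2-Centre: the points of `X` below a prime divisor of `Y`

PLAN for `pt_cases`.  `Surf.exists_centre X R hk hR`.
*Case `C.1 = R.toLocalSubring`*: take this `C`.
*Case `P₀.1 ≤ R.toLocalSubring`* (domination): show `P = P₀` (and `P' = P₀` in the same way).
Let `l ∈ {1,s,t}` with `chart l ≤ P₀` and `l'` with `chart l' ≤ P` (`Pt.exists_chart`).
`l / l' ∈ chart l' ≤ P ≤ R` and `l' / l ∈ chart l ≤ P₀`; so `l' / l` is a unit of `R` lying in `P₀`,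
hence a unit of `P₀` (local homomorphism), so `l / l' ∈ P₀` and `chart l' ≤ P₀`
(`Surf.chart_le_of_div` with `Pt.int`).  Now `P₀ = ofPrime (chart l') p₀`,
`P = ofPrime (chart l') p` (`Pt.ofPrime_of_chart`), both maximal; for `x ∈ chart l'`, `x ∉ p`:
`x⁻¹ ∈ P ≤ R`, so `x` is a unit of `R`, hence of `P₀`, so `x ∉ p₀`: `p₀ ≤ p`, equality, `P = P₀`.

`valBelow`: `x ∈ C.1` or `x⁻¹ ∈ C.1` for all `x ∈ L` (`C.1` is a valuation ring with fraction field
`L`; by `PD.mem_iff`: `0 ≤ ord x` or `0 ≤ ord x⁻¹`).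
`valBelow_ne_top`: otherwise `K ⊆ C.1`, and `L` is integral over `K` (`isAlgebraic_of_surf`), and
`C.1` is integrally closed in `L` (`PD.int`), so `C.1 = ⊤`, contradiction with `PD.ne_top`.
`exists_below`: `PD.exists_point` and `hmor`.
-/

set_option autoImplicit false

namespace HB.E2

open Surf

variable {k K L : Type} [Field k] [CharZero k] [IsAlgClosed k] [Field K] [Field L] [Algebra k K]
  [Algebra k L] [Algebra K L] [IsScalarTower k K L]

omit [CharZero k] [IsAlgClosed k] in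
private theorem centre_inv {X : Surf k K} (R : ValuationSubring K) (P₀ : X.Pt)
    (hd : P₀.1 ≤ R.toLocalSubring) {x : K} (hx : x ∈ P₀.1.toSubring) (hx0 : x ≠ 0)
    (hxR : x⁻¹ ∈ R.toSubring) : x⁻¹ ∈ P₀.1.toSubring := by
  obtain ⟨h, hl⟩ := LocalSubring.le_def.1 hd
  have h1 : IsUnit (Subring.inclusion h ⟨x, hx⟩) := by
    refine IsUnit.of_mul_eq_one (⟨x⁻¹, hxR⟩ : R.toLocalSubring.toSubring) (Subtype.ext ?_)
    exact mul_inv_cancel₀ hx0
  have h2 := hl.map_nonunit _ h1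
  obtain ⟨c, hc⟩ := h2.exists_right_inv
  have h3 : x * (c : K) = 1 := congrArg Subtype.val hc
  rw [inv_eq_of_mul_eq_one_right h3]
  exact c.2

private theorem centre_uniq (X : Surf k K) (R : ValuationSubring K) (P₀ : X.Pt)
    (hd : P₀.1 ≤ R.toLocalSubring) (P : X.Pt) (h : P.1.toSubring ≤ R.toSubring) : P = P₀ := by
  obtain ⟨l, hl, hlP₀⟩ := P₀.exists_chart
  obtain ⟨hl1, hl0⟩ := ne_zero_of_mem hl
  obtain ⟨l', hl', hlP⟩ := P.exists_chart
  obtain ⟨hl1', hl0'⟩ := ne_zero_of_mem hl'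
  have h1 : l' / l ∈ P₀.1.toSubring := hlP₀ (X.div_mem_chart hl1')
  have h2 : (l' / l)⁻¹ ∈ R.toSubring := by
    rw [inv_div]
    exact h (hlP (X.div_mem_chart hl1))
  have h3 := centre_inv R P₀ hd h1 (div_ne_zero hl0' hl0) h2
  rw [inv_div] at h3
  have h4 : X.chart l' ≤ P₀.1.toSubring :=
    X.chart_le_of_div hl0 P₀.1.toSubring P₀.algebraMap_mem (fun x hx => P₀.int hx) hlP₀ h3
  obtain ⟨p₀, hp₀, hp₀m, e₀⟩ := P₀.ofPrime_of_chart hl1' hl0' h4
  obtain ⟨p, hp, hpm, e⟩ := P.ofPrime_of_chart hl1' hl0' hlP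
  have hle : p₀ ≤ p := by
    intro x hx
    by_contra hxp
    obtain ⟨hx0, hx1⟩ := (notMem_iff_inv_mem _ p x).1 hxp
    rw [← e] at hx1
    have h5 := centre_inv R P₀ hd (h4 x.2) hx0 (h hx1)
    rw [e₀] at h5
    exact (notMem_iff_inv_mem _ p₀ x).2 ⟨hx0, h5⟩ hx
  have heq : p₀ = p := hp₀m.eq_of_le hp.ne_top hle
  apply Subtype.ext
  rw [e, e₀]
  subst heq
  rfl

theorem pt_cases (X : Surf k K) (R : ValuationSubring K)
    (hk : ∀ c : k, algebraMap k K c ∈ R) (hR : R ≠ ⊤) (P P' : X.Pt)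
    (h : P.1.toSubring ≤ R.toSubring) (h' : P'.1.toSubring ≤ R.toSubring) :
    P = P' ∨ ∃ C : X.PD, On P C ∧ On P' C ∧ C.1.toSubring = R.toSubring := by
  rcases Surf.exists_centre X R hk hR with ⟨P₀, h0⟩ | ⟨C, hC⟩
  · left
    rw [centre_uniq X R P₀ h0 P h, centre_uniq X R P₀ h0 P' h']
  · right
    have e : C.1.toSubring = R.toSubring := by
      rw [hC]
      rfl
    refine ⟨C, ?_, ?_, e⟩
    · unfold On
      rw [e]
      exact h
    · unfold On
      rw [e]
      exact h'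

private theorem centre_or {Y : Surf k L} (C : Y.PD) (z : L) :
    z ∈ C.1.toSubring ∨ z⁻¹ ∈ C.1.toSubring := by
  by_cases hz : z = 0
  · left
    rw [hz]
    exact zero_mem _
  rw [mem_iff_ordS C.1.toSubring hz, mem_iff_ordS C.1.toSubring (inv_ne_zero hz), ordS_inv]
  rcases le_total 0 (ordS C.1.toSubring z) with h | h
  · exact Or.inl h
  · exact Or.inr (by omega)

/-- The valuation ring of `K` below the prime divisor `C` of `Y`. -/
def valBelow (K : Type) [Field K] [Algebra k K] [Algebra K L] [IsScalarTower k K L]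
    {Y : Surf k L} (C : Y.PD) : ValuationSubring K where
  toSubring := C.1.toSubring.comap (algebraMap K L)
  mem_or_inv_mem' := by
    intro x
    rcases centre_or C (algebraMap K L x) with h | h
    · exact Or.inl h
    · right
      change algebraMap K L x⁻¹ ∈ C.1.toSubring
      rw [map_inv₀]
      exact h

theorem mem_valBelow {Y : Surf k L} (C : Y.PD) (x : K) :
    x ∈ valBelow K C ↔ algebraMap K L x ∈ C.1.toSubring := Iff.rfl

theorem valBelow_ne_top (X : Surf k K) {Y : Surf k L} (C : Y.PD) :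
    valBelow K C ≠ ⊤ := by
  intro htop
  have hall : ∀ x : K, algebraMap K L x ∈ C.1.toSubring := by
    intro x
    rw [← mem_valBelow, htop]
    exact ValuationSubring.mem_top x
  have halg := isAlgebraic_of_surf X Y
  apply C.ne_top
  rw [eq_top_iff]
  intro y _
  apply C.int
  obtain ⟨q, hq, hq0⟩ := (Algebra.IsAlgebraic.isAlgebraic (R := K) y).isIntegral
  refine ⟨q.map ((algebraMap K L).codRestrict C.1.toSubring hall), hq.map _, ?_⟩
  rw [Polynomial.eval₂_map]
  exact hq0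

/-- There is a point of `X` below `C`; and if `Q ∈ C` is mapped to `P`, then `P` is below `C`. -/
theorem le_valBelow {X : Surf k K} {Y : Surf k L} (C : Y.PD) (Q : Y.Pt) (hQ : On Q C) (P : X.Pt)
    (hP : Dom Q P) : P.1.toSubring ≤ (valBelow K C).toSubring := by
  intro x hx
  have h1 := (LocalSubring.le_def.1 hP).1
  have h2 : algebraMap K L x ∈ (P.1.map (algebraMap K L)).toSubring := ⟨x, hx, rfl⟩
  exact hQ (h1 h2)

theorem exists_below {X : Surf k K} {Y : Surf k L} (hmor : IsMor Y X) (C : Y.PD) :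
    ∃ (Q : Y.Pt) (P : X.Pt), On Q C ∧ Dom Q P := by
  obtain ⟨Q, hQ⟩ := C.exists_point
  obtain ⟨P, hP⟩ := hmor Q
  exact ⟨Q, P, hQ, hP⟩

end HB.E2
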