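import Pool.Agent.HB.E2.Centre
import Pool.Agent.HB.F.Defs
import Pool.Agent.HB.A.FacB

/-!
# HB-E2-Nat: points of `B` over `K` and over `L ⊇ K`; finiteness of supports
-/

set_option autoImplicit false

namespace HB.E2

open Surf

variable {k K L : Type} [Field k] [CharZero k] [IsAlgClosed k] [Field K] [Field L] [Algebra k K]
  [Algebra k L] [Algebra K L] [IsScalarTower k K L]

omit [CharZero k] [IsAlgClosed k] in
theorem comap_v (D : DV k L) (x : K) : (D.comap : DV k K).v x = D.v (algebraMap K L x) := rfl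

omit [CharZero k] [IsAlgClosed k] in
theorem comap_ge (D : DV k L) (n : ℤ) (x : K) :
    (D.comap : DV k K).ge n x ↔ D.ge n (algebraMap K L x) := by
  unfold DV.ge
  rw [map_eq_zero]
  rfl

omit [CharZero k] [IsAlgClosed k] in
theorem comap_dmin (D : DV k L) (a b : K) :
    (D.comap : DV k K).dmin a b = D.dmin (algebraMap K L a) (algebraMap K L b) := by
  have h1 : ∀ x : K, (algebraMap K L x = 0) = (x = 0) := fun x => propext (map_eq_zero _)
  unfold DV.dmin
  rw [h1 a, h1 b]
  rfl

theorem map_x (p : BPt K) : (BPt.map L p).x = algebraMap K L p.x := by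
  cases p <;> simp [BPt.map, BPt.x]

theorem map_y (p : BPt K) : (BPt.map L p).y = algebraMap K L p.y := by
  cases p <;> simp [BPt.map, BPt.y]

theorem map_xh (p : BPt K) : (BPt.map L p).xh = algebraMap K L p.xh := by
  cases p <;> simp [BPt.map, BPt.xh]

theorem map_yh (p : BPt K) : (BPt.map L p).yh = algebraMap K L p.yh := by
  cases p <;> simp [BPt.map, BPt.yh]

omit [CharZero k] [IsAlgClosed k] in
theorem isFin_comap (D : DV k L) (p : BPt K) :
    p.IsFin (D.comap : DV k K) ↔ (BPt.map L p).IsFin D := by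
  cases p with
  | aff x y h => exact comap_ge D 0 x
  | inf e h => exact Iff.rfl

omit [CharZero k] [IsAlgClosed k] in
theorem iB_comap (D : DV k L) (p q : BPt K) :
    (D.comap : DV k K).iB p q = D.iB (BPt.map L p) (BPt.map L q) := by
  unfold DV.iB
  rw [isFin_comap, isFin_comap, comap_dmin, comap_dmin]
  simp only [map_sub, map_x, map_y, map_xh, map_yh]

theorem map_injective : Function.Injective (BPt.map L : BPt K → BPt L) := by
  intro p q h
  cases p <;> cases q <;> simp_all [BPt.map]

omit [CharZero k] [IsAlgClosed k] [IsScalarTower k K L] in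
theorem mor_up {X : Surf k K} {Y : Surf k L} (hmor : IsMor Y X) {p : BPt K} (hp : X.Mor p) :
    Y.Mor (BPt.map L p) := by
  intro Q
  obtain ⟨P, hP⟩ := hmor Q
  have hle : ∀ a ∈ P.1.toSubring, algebraMap K L a ∈ Q.1.toSubring := by
    intro a ha
    exact hP.1 (Subring.mem_map.2 ⟨a, ha, rfl⟩)
  rw [map_x, ← map_inv₀]
  exact (hp P).imp (hle _) (hle _)

theorem finite_v {Y : Surf k L} (f : K) :
    {C : Y.PD | (C.dv.comap : DV k K).v f ≠ 0}.Finite := by
  by_cases hf : f = 0
  · subst hf
    convert Set.finite_empty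
    ext C
    simp [DV.zero]
  · exact finite_ord_ne_zero ((map_ne_zero (algebraMap K L)).2 hf)

theorem finite_iE {Y : Surf k L} (Q : EPt K) :
    {C : Y.PD | (C.dv.comap : DV k K).iE Q ≠ 0}.Finite := by
  refine (finite_v (Y := Y) (eX Q)).subset ?_
  intro C hC h0
  apply hC
  unfold DV.iE
  rw [h0]
  simp

theorem finite_iInf {Y : Surf k L} (p : BPt K) :
    {C : Y.PD | (C.dv.comap : DV k K).iInf p ≠ 0}.Finite := by
  refine (finite_v (Y := Y) p.x).subset ?_
  intro C hC h0
  apply hC
  unfold DV.iInf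
  rw [h0]
  simp

theorem finite_iZero {Y : Surf k L} (p : BPt K) :
    {C : Y.PD | (C.dv.comap : DV k K).iZero p ≠ 0}.Finite := by
  refine (finite_v (Y := Y) p.x).subset ?_
  intro C hC h0
  apply hC
  unfold DV.iZero
  rw [h0]
  simp

end HB.E2
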