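import Pool.Agent.HB.E2.Theory

/-!
# HB-E2-Pole: a function which is not constant has a pole

PLAN.  Suppose `C.ord f ≥ 0` for all `C` (and `f ≠ 0`).  Take a closed point `P` (a maximal ideal of
`S.chart 1`).  By `Pt.mem_iff` `f ∈ P.1`; let `c = P.ev f`; `g = f - c ∈ m_P` (`Pt.sub_ev_mem`).
If `g ≠ 0`, it is
not a unit at `P`, so by `Pt.unit_iff` there is `C` through `P` with `C.ord g ≠ 0`; and
`C.ord g ≥ 0` for all `C` (ultrametric inequality, `ord c = 0` or `c = 0`), so `div g` is effective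
and nonzero, but `degH (div g) = 0` (`degH_isDiv`), contradicting `Surf.degH_pos`.
-/

set_option autoImplicit false

open IsLocalRing

namespace HB.E2

open Surf

variable {k L : Type} [Field k] [CharZero k] [IsAlgClosed k] [Field L] [Algebra k L]

omit [CharZero k] [IsAlgClosed k] in
private theorem exists_pt (Y : Surf k L) : Nonempty Y.Pt := by
  obtain ⟨M, hM⟩ := Ideal.exists_maximal (Y.chart 1)
  exact ⟨⟨LocalSubring.ofPrime (Y.chart 1) M, 1, Y.one_mem_V, one_ne_zero, M, hM.isPrime, hM, rfl⟩⟩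

theorem exists_pole {Y : Surf k L} (hY : Y.Smooth) (f : L)
    (hf : ∀ c : k, f ≠ algebraMap k L c) : ∃ C : Y.PD, C.ord f < 0 := by
  by_contra hcon
  push Not at hcon
  obtain ⟨P⟩ := exists_pt Y
  have hf0 : f ≠ 0 := by
    have := hf 0
    rwa [map_zero] at this
  have hfP : f ∈ P.1.toSubring := (P.mem_iff hY hf0).2 (fun C _ => hcon C)
  have hg := P.sub_ev_mem ⟨f, hfP⟩
  set c : k := P.ev ⟨f, hfP⟩ with hc
  have hg0 : f - algebraMap k L c ≠ 0 := sub_ne_zero.2 (hf c)
  have hge : ∀ C : Y.PD, 0 ≤ C.ord (f - algebraMap k L c) := by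
    intro C
    have h1 : f ∈ C.1.toSubring := (mem_iff_ordS C.1.toSubring hf0).2 (hcon C)
    exact ordS_nonneg _ (sub_mem h1 (C.algebraMap_mem c))
  obtain ⟨D, hD⟩ := exists_isDiv (S := Y) hg0
  have hD0 : 0 ≤ D := by
    intro C
    rw [hD.2 C]
    exact hge C
  have hD1 : D ≠ 0 := by
    intro h0
    have h1 : ∀ C : Y.PD, On P C → C.ord (f - algebraMap k L c) = 0 := by
      intro C _
      rw [← hD.2 C, h0]
      rfl
    obtain ⟨h2, h3⟩ := (P.unit_iff hY hg0).2 h1
    refine (notMem_maximalIdeal.2 ?_) hg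
    refine IsUnit.of_mul_eq_one (⟨_, h3⟩ : P.1.toSubring) (Subtype.ext ?_)
    exact mul_inv_cancel₀ hg0
  have h4 := degH_pos hY hD0 hD1
  rw [degH_isDiv hY hD] at h4
  exact lt_irrefl _ h4

end HB.E2
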