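import Pool.Agent.HB.E2.Iface
import Pool.Agent.HB.E2.Nat
import Pool.Agent.HB.E2.Pole
import Pool.Agent.HB.F.Gam
import Pool.Agent.HB.B.B5

/-!
# HB-E2-Deg: the divisors and degrees on `Y` (assembly)
-/

set_option autoImplicit false

namespace HB.E2

open Surf

variable {k K L : Type} [Field k] [CharZero k] [IsAlgClosed k] [Field K] [Field L] [Algebra k K]
  [Algebra k L] [Algebra K L] [IsScalarTower k K L]

omit [CharZero k] [IsAlgClosed k] in
theorem map_inf (e : k) (e' : K) (h : e ^ 2 = 1) (h' : e' ^ 2 = 1) (he : e' = algebraMap k K e) :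
    BPt.map L (BPt.inf e' h' : BPt K) = BPt.map L (BPt.inf e h : BPt k) := by
  subst he
  simp only [BPt.map]
  congr 1
  rw [← IsScalarTower.algebraMap_apply]

omit [CharZero k] [IsAlgClosed k] in
theorem map_map (b : BPt k) : BPt.map L (BPt.map K b) = BPt.map L b := by
  cases b <;> simp only [BPt.map] <;> congr 1 <;> rw [← IsScalarTower.algebraMap_apply]

/-- The degree facts, from the corresponding facts about fibres (part F). -/
theorem exists_degFacts {X : Surf k K} (B : BData X) {Y : Surf k L} (hY : Y.Smooth)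
    (hA : AFacts Y) (hmor : IsMor Y X)
    (h3 : B.pt 3 = BPt.inf 1 (one_pow 2)) (h4 : B.pt 4 = BPt.inf (-1) (by norm_num))
    (hM : ∀ a : Fin 5, a < 3 → X.Mor (B.pt a))
    (haff : ∀ a : Fin 5, a < 3 → ∃ (x y : K) (h : y ^ 2 = x ^ 6 + 1), B.pt a = .aff x y h ∧
      ∀ c : k, x ≠ algebraMap k K c)
    (p1 p2 : BPt k) (hZ : ∀ a : Fin 5, a < 3 → ∀ D : DV k K,
      B.Z a D = D.iB (B.pt a) (p1.map K) - D.iB (B.pt a) (p2.map K))
    (hVfin : {C : Y.PD | B.V (C.dv.comap : DV k K) ≠ 0}.Finite)
    (hdeg : ∀ p : BPt L, Y.Mor p → (∀ b : BPt k, p ≠ b.map L) →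
      ∀ b b' : BPt k, Y.degH (Y.fib p b) = Y.degH (Y.fib p b')) :
    Nonempty (DegFacts B Y) := by
  classical
  have hL : Function.Injective (algebraMap K L) := (algebraMap K L).injective
  -- the marks over `L`
  have hne : ∀ a : Fin 5, a < 3 → ∀ b : BPt k, BPt.map L (B.pt a) ≠ b.map L := by
    intro a ha b h
    obtain ⟨x, y, hxy, hp, hc⟩ := haff a ha
    rw [hp] at h
    cases b with
    | aff c d h' =>
      simp only [BPt.map, BPt.aff.injEq] at h
      apply hc c
      apply hL
      rw [h.1, ← IsScalarTower.algebraMap_apply]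
    | inf e h' => simp [BPt.map] at h
  have hMor : ∀ a : Fin 5, a < 3 → Y.Mor (BPt.map L (B.pt a)) := fun a ha => mor_up hmor (hM a ha)
  have hMc : ∀ b : BPt k, Y.Mor (b.map L) := fun b => mor_map hA b
  have hfib : ∀ a : Fin 5, a < 3 → ∀ (b : BPt k) (C : Y.PD), Y.fib (BPt.map L (B.pt a)) b C =
      (C.dv.comap : DV k K).iB (B.pt a) (b.map K) := by
    intro a ha b C
    rw [iB_comap, map_map]
    exact gam_apply hA (hMor a ha) (hMc b) (hne a ha b) C
  let bz : Fin 5 → BPt k := fun z => if z = 3 then .inf 1 (one_pow 2) else .inf (-1) (by norm_num)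
  have hbz : ∀ z : Fin 5, 3 ≤ z → (bz z).map K = B.pt z := by
    intro z hz
    have : z = 3 ∨ z = 4 := by
      revert z; decide
    rcases this with rfl | rfl
    · rw [h3]; simp [bz, BPt.map]
    · rw [h4]; simp [bz, BPt.map]
  -- divisibility by three
  have hdiv0 : ∀ C : Y.PD, ∃ n : ℤ, 3 * n = (C.dv.comap : DV k K).iB (B.pt 0) (B.pt 1) := by
    intro C
    obtain ⟨Q, P, hQ, hP⟩ := exists_below hmor C
    have hb : Below (C.dv.comap : DV k K) P := by
      intro a ha
      have h2 : algebraMap K L a ∈ C.1.toSubring := le_valBelow C Q hQ P hP ha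
      rcases (C.dv_ge_zero _).2 h2 with h3 | h3
      · exact Or.inl ((map_eq_zero _).1 h3)
      · exact Or.inr h3
    exact ⟨_, B.vδ0 P _ hb⟩
  have hdiv2 : ∀ C : Y.PD, ∃ n : ℤ, 3 * n = (C.dv.comap : DV k K).iB (B.pt 2) (B.pt 1) := by
    intro C
    obtain ⟨Q, P, hQ, hP⟩ := exists_below hmor C
    have hb : Below (C.dv.comap : DV k K) P := by
      intro a ha
      have h2 : algebraMap K L a ∈ C.1.toSubring := le_valBelow C Q hQ P hP ha
      rcases (C.dv_ge_zero _).2 h2 with h3 | h3
      · exact Or.inl ((map_eq_zero _).1 h3)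
      · exact Or.inr h3
    exact ⟨_, B.vδ2 P _ hb⟩
  choose n0 hn0 using hdiv0
  choose n2 hn2 using hdiv2
  have hgam : ∀ a b : Fin 5, a < 3 → b < 3 → B.pt a ≠ B.pt b → ∀ C : Y.PD,
      Y.gam (BPt.map L (B.pt a)) (BPt.map L (B.pt b)) C =
        (C.dv.comap : DV k K).iB (B.pt a) (B.pt b) := by
    intro a b ha hb hab C
    rw [iB_comap]
    exact gam_apply hA (hMor a ha) (hMor b hb) (fun h => hab (map_injective h)) C
  -- the three marks are different
  obtain ⟨x0, y0, e0, hp0, -⟩ := haff 0 (by decide)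
  obtain ⟨x1, y1, e1, hp1, -⟩ := haff 1 (by decide)
  obtain ⟨x2, y2, e2, hp2, -⟩ := haff 2 (by decide)
  have hfin0 : (Function.support n0).Finite := by
    by_cases h01 : B.pt 0 = B.pt 1
    · exfalso
      have h2 := B.indep.injective
      have : (![(B.pt 0).x, (B.pt 1).x] : Fin 2 → K) 0 = ![(B.pt 0).x, (B.pt 1).x] 1 := by
        simp [h01]
      exact absurd (h2 this) (by decide)
    · refine (Y.gam (BPt.map L (B.pt 0)) (BPt.map L (B.pt 1))).support.finite_toSet.subset ?_
      intro C hC
      rw [Function.mem_support] at hC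
      rw [Finset.mem_coe, Finsupp.mem_support_iff, hgam 0 1 (by decide) (by decide) h01]
      rw [← hn0 C]
      omega
  have hfin2 : (Function.support n2).Finite := by
    by_cases h21 : B.pt 2 = B.pt 1
    · refine (Set.finite_empty).subset ?_
      intro C hC
      rw [Function.mem_support] at hC
      exfalso
      apply hC
      obtain ⟨Q, P, hQ, hP⟩ := exists_below hmor C
      have hb : Below (C.dv.comap : DV k K) P := by
        intro a ha
        have h2 : algebraMap K L a ∈ C.1.toSubring := le_valBelow C Q hQ P hP ha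
        rcases (C.dv_ge_zero _).2 h2 with h3 | h3
        · exact Or.inl ((map_eq_zero _).1 h3)
        · exact Or.inr h3
      have h3 := hn2 C
      have h4 : (C.dv.comap : DV k K).iB (B.pt 2) (B.pt 1) = 0 := by
        rw [h21]
        unfold DV.iB
        simp [DV.dmin, DV.zero]
      omega
    · refine (Y.gam (BPt.map L (B.pt 2)) (BPt.map L (B.pt 1))).support.finite_toSet.subset ?_
      intro C hC
      rw [Function.mem_support] at hC
      rw [Finset.mem_coe, Finsupp.mem_support_iff, hgam 2 1 (by decide) (by decide) h21]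
      rw [← hn2 C]
      omega
  have hVs : (Function.support fun C : Y.PD => B.V (C.dv.comap : DV k K)).Finite := hVfin
  refine ⟨{
    F := fun a z => Y.fib (BPt.map L (B.pt a)) (bz z)
    D0 := Finsupp.ofSupportFinite n0 hfin0
    D2 := Finsupp.ofSupportFinite n2 hfin2
    V := Finsupp.ofSupportFinite _ hVs
    Z := fun a => Y.fib (BPt.map L (B.pt a)) p1 - Y.fib (BPt.map L (B.pt a)) p2
    hF := fun a z C ha hz => by rw [hfib a ha, hbz z hz]
    hD0 := fun C => hn0 C
    hD2 := fun C => hn2 C
    hV := fun C => rfl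
    hZ := fun a C ha => by
      rw [Finsupp.sub_apply, hfib a ha, hfib a ha, hZ a ha]
    degF := ?_
    degZ := ?_ }⟩
  · intro a ha
    have heq := hdeg _ (hMor a ha) (hne a ha) (bz 3) (bz 4)
    refine ⟨heq, ?_⟩
    have hsum : 0 < Y.degH (Y.fib (BPt.map L (B.pt a)) (bz 3) +
        Y.fib (BPt.map L (B.pt a)) (bz 4)) := by
      apply degH_pos hY
      · intro C
        exact add_nonneg (gam_nonneg hA (hMor a ha) (hMc _) (hne a ha _) C)
          (gam_nonneg hA (hMor a ha) (hMc _) (hne a ha _) C)
      · intro h0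
        obtain ⟨x, y, hxy, hp, hc⟩ := haff a ha
        obtain ⟨C, hC⟩ := exists_pole hY (algebraMap K L x) (by
          intro c h
          apply hc c
          apply hL
          rw [h, ← IsScalarTower.algebraMap_apply])
        have h1 := congrArg (fun D : Y.Div => D C) h0
        simp only [Finsupp.add_apply, Finsupp.coe_zero, Pi.zero_apply] at h1
        rw [hfib a ha, hfib a ha, hbz 3 (by decide), hbz 4 (by decide), h3, h4, hp] at h1
        have h2 := (C.dv.comap : DV k K).iInf_eq hxy 1 (one_pow 2)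
        have h5 : (C.dv.comap : DV k K).iInf (BPt.aff x y hxy) = 0 := by
          rw [h2]
          convert h1 using 3
        unfold DV.iInf at h5
        have h6 : (C.dv.comap : DV k K).v (BPt.aff x y hxy).x = C.ord (algebraMap K L x) := rfl
        rw [h6] at h5
        omega
    rw [degH_add hY] at hsum
    linarith
  · intro a ha
    have heq := hdeg _ (hMor a ha) (hne a ha) p1 p2
    rw [sub_eq_add_neg, degH_add hY, degH_neg hY, heq]
    ring

end HB.E2
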