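import Pool.Agent.HB.E2.Centre

/-!
# HB-E2-Self: pull-back by the identity

PLAN.  `dom_self`: `LocalSubring.map (algebraMap K K) P.1 = P.1` (`Algebra.algebraMap_self`, `ext`).
`pull_self`: if `Dom Q P` (with `L = K`) then `P.1 ≤ Q.1`, so `P = Q` (`Pt.eq_of_le`), and
`E Q = latt Q.1 (g Q)` is an additive subgroup stable under multiplication by `Q.1`.
`pullΘ_self`: `KaehlerDifferential.map k k K K = id` (check on `D x`: `KaehlerDifferential.map_D`,
span `KaehlerDifferential.span_range_derivation`).
-/

set_option autoImplicit false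

open scoped Matrix

namespace HB.E2

open Surf

variable {k K : Type} [Field k] [CharZero k] [IsAlgClosed k] [Field K] [Algebra k K]

omit [CharZero k] [IsAlgClosed k] in
private theorem map_self {X : Surf k K} (P : X.Pt) : P.1.map (algebraMap K K) = P.1 := by
  rw [Algebra.algebraMap_self]
  apply LocalSubring.toSubring_injective
  exact Subring.map_id _

omit [CharZero k] [IsAlgClosed k] in
theorem dom_self {X : Surf k K} (P : X.Pt) : Dom (K := K) (L := K) P P := by
  unfold Dom
  rw [map_self]

theorem isMor_self (X : Surf k K) : IsMor (K := K) (L := K) X X := fun Q => ⟨Q, dom_self Q⟩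

theorem pull_self {X : Surf k K} {r : ℕ} (E : X.Pt → Set (Fin r → K))
    (g : X.Pt → Matrix (Fin r) (Fin r) K) (hE : ∀ P, E P = latt P.1.toSubring (g P)) :
    pull (K := K) X E = E := by
  funext Q
  apply Set.Subset.antisymm
  · intro x hx
    have hx' : x ∈ AddSubgroup.closure {x : Fin r → K | ∃ P : X.Pt, Dom (K := K) (L := K) Q P ∧
      ∃ e ∈ E P, ∃ c ∈ Q.1.toSubring, x = fun i => c * algebraMap K K (e i)} := hx
    rw [hE Q]
    clear hx
    induction hx' using AddSubgroup.closure_induction with
    | mem x hx =>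
      obtain ⟨P, hP, e, he, c, hc, rfl⟩ := hx
      unfold Dom at hP
      rw [map_self] at hP
      have h1 : P = Q := Pt.eq_of_le P Q hP.1
      subst h1
      rw [hE P] at he
      obtain ⟨d, hd, rfl⟩ := he
      refine ⟨fun j => c * d j, fun j => mul_mem hc (hd j), ?_⟩
      have h2 : (fun j => c * d j) = c • d := rfl
      rw [h2, Matrix.mulVec_smul]
      rfl
    | zero => exact ⟨0, fun j => zero_mem _, (Matrix.mulVec_zero _).symm⟩
    | add x y _ _ hx hy =>
      obtain ⟨a, ha, rfl⟩ := hx
      obtain ⟨b, hb, rfl⟩ := hy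
      exact ⟨a + b, fun j => add_mem (ha j) (hb j), (Matrix.mulVec_add _ _ _).symm⟩
    | neg x _ hx =>
      obtain ⟨a, ha, rfl⟩ := hx
      exact ⟨-a, fun j => neg_mem (ha j), (Matrix.mulVec_neg _ _).symm⟩
  · intro x hx
    refine AddSubgroup.subset_closure ⟨Q, dom_self Q, x, hx, 1, one_mem _, ?_⟩
    funext i
    rw [one_mul]
    rfl

theorem pullΘ_self {r : ℕ} (θ : Matrix (Fin r) (Fin r) (Ω[K⁄k])) :
    pullΘ (K := K) K θ = θ := by
  have h : ∀ x : Ω[K⁄k], KaehlerDifferential.map k k K K x = x := by
    intro x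
    have hx : x ∈ Submodule.span K (Set.range (KaehlerDifferential.D k K)) := by
      rw [KaehlerDifferential.span_range_derivation]
      exact Submodule.mem_top
    induction hx using Submodule.span_induction with
    | mem x hx =>
      obtain ⟨a, rfl⟩ := hx
      rw [KaehlerDifferential.map_D]
      rfl
    | zero => exact map_zero _
    | add x y _ _ hx hy => rw [map_add, hx, hy]
    | smul a x _ hx => rw [map_smul, hx]
  unfold pullΘ
  ext i j
  exact h _

end HB.E2
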