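import Pool.Agent.HB.E2.AtDiv
import Pool.Agent.HB.E2.PolyLatt
import Pool.Agent.HB.E2.Self
import Pool.Agent.HB.Curve

/-!
# HB-E2-Iface: what part E needs about the bundle (to be provided by parts D, B, R5)
-/

set_option autoImplicit false

open scoped Matrix

namespace HB.E2

variable {k K : Type} [Field k] [CharZero k] [IsAlgClosed k] [Field K] [Algebra k K]

/-- The DV `D` is nonnegative on the local ring at `P`. -/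
def Below {X : Surf k K} (D : DV k K) (P : X.Pt) : Prop := ∀ a ∈ P.1.toSubring, D.ge 0 a

/-- The data of the bundle. Indices: `0, 1, 2` are the marks, `3, 4` the two points at infinity. -/
structure BData (X : Surf k K) where
  pt : Fin 5 → BPt K
  indep : AlgebraicIndependent k ![(pt 0).x, (pt 1).x]
  y0 : (pt 0).y ≠ 0
  y1 : (pt 1).y ≠ 0
  /-- the coefficient functions of the divisors `Z a` and `V` -/
  Z : Fin 5 → DV k K → ℤ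
  V : DV k K → ℤ
  ρ : Fin 5 → K
  ρ_ne : ∀ i, ρ i ≠ 0
  n : X.Pt → Fin 5 → K
  u : X.Pt → Fin 5 → K
  δ0 : X.Pt → K
  δ2 : X.Pt → K
  n_ne : ∀ P i, n P i ≠ 0
  u_mem : ∀ P i, u P i ∈ P.1.toSubring
  u_inj : ∀ P, Function.Injective (u P)
  δ0_ne : ∀ P, δ0 P ≠ 0
  δ2_ne : ∀ P, δ2 P ≠ 0
  δ0_mem : ∀ P, δ0 P ∈ P.1.toSubring
  δ2_mem : ∀ P, δ2 P ∈ P.1.toSubring
  u02 : ∀ P, (u P 0 - u P 2)⁻¹ ∈ P.1.toSubring
  vu : ∀ (P : X.Pt) (D : DV k K), Below D P → ∀ i j, i ≠ j →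
    D.v (u P i - u P j) = D.iB (pt i) (pt j)
  vδ0 : ∀ (P : X.Pt) (D : DV k K), Below D P → 3 * D.v (δ0 P) = D.iB (pt 0) (pt 1)
  vδ2 : ∀ (P : X.Pt) (D : DV k K), Below D P → 3 * D.v (δ2 P) = D.iB (pt 2) (pt 1)
  i02 : ∀ D : DV k K, D.iB (pt 0) (pt 2) = 0
  i34 : ∀ D : DV k K, D.iB (pt 3) (pt 4) = 0
  rel0 : ∀ (P : X.Pt) (D : DV k K), Below D P → 3 * D.v (n P 0) = D.v (ρ 0) -
    (3 * Z 0 D + D.iB (pt 0) (pt 3) + D.iB (pt 0) (pt 4) + 2 * D.iB (pt 0) (pt 1) + V D)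
  rel1 : ∀ (P : X.Pt) (D : DV k K), Below D P → 3 * D.v (n P 1) = D.v (ρ 1) -
    (3 * Z 1 D + D.iB (pt 1) (pt 3) + D.iB (pt 1) (pt 4) +
      2 * (D.iB (pt 0) (pt 1) + D.iB (pt 2) (pt 1)) + V D)
  rel2 : ∀ (P : X.Pt) (D : DV k K), Below D P → 3 * D.v (n P 2) = D.v (ρ 2) -
    (3 * Z 2 D + D.iB (pt 2) (pt 3) + D.iB (pt 2) (pt 4) + 2 * D.iB (pt 2) (pt 1) + V D)
  rel3 : ∀ (P : X.Pt) (D : DV k K), Below D P → 3 * D.v (n P 3) = D.v (ρ 3) -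
    (2 * (D.iB (pt 0) (pt 3) + D.iB (pt 1) (pt 3) + D.iB (pt 2) (pt 3)) + V D)
  rel4 : ∀ (P : X.Pt) (D : DV k K), Below D P → 3 * D.v (n P 4) = D.v (ρ 4) -
    (2 * (D.iB (pt 0) (pt 4) + D.iB (pt 1) (pt 4) + D.iB (pt 2) (pt 4)) + V D)
  E : VB X 5
  E_eq : ∀ P, E.E P = latt P.1.toSubring (fr (n P) (u P) (δ0 P) (δ2 P))
  glue : ∀ (V : X.PD) (P P' : X.Pt), Surf.On P V → Surf.On P' V →
    latt V.1.toSubring (fr (n P) (u P) (δ0 P) (δ2 P)) =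
      latt V.1.toSubring (fr (n P') (u P') (δ0 P') (δ2 P'))
  /-- the eigenvalue `- ζ` of `α` on `dx / y` -/
  z : k
  z0 : z ≠ 0
  z1 : z ≠ 1
  lam : Fin 5 → Ω[K⁄k]
  lam0 : lam 0 = (pt 0).y⁻¹ • KaehlerDifferential.D k K (pt 0).x
  lam1 : lam 1 = (pt 1).y⁻¹ • KaehlerDifferential.D k K (pt 1).x
  lam2 : lam 2 = algebraMap k K z • lam 0
  lam3 : lam 3 = 0
  lam4 : lam 4 = 0

/-- The Higgs field. -/
noncomputable def BData.θ {X : Surf k K} (B : BData X) : Matrix (Fin 5) (Fin 5) (Ω[K⁄k]) :=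
  Matrix.diagonal B.lam

/-- What part E needs about divisors on a surface `Y` over `X` (part F: `HB/F/DegH.lean`). -/
structure DegFacts {L : Type} [Field L] [Algebra k L] [Algebra K L] [IsScalarTower k K L]
    {X : Surf k K} (B : BData X) (Y : Surf k L) where
  F : Fin 5 → Fin 5 → Y.Div
  D0 : Y.Div
  D2 : Y.Div
  V : Y.Div
  Z : Fin 5 → Y.Div
  hF : ∀ (a z : Fin 5) (C : Y.PD), a < 3 → 3 ≤ z →
    F a z C = (C.dv.comap : DV k K).iB (B.pt a) (B.pt z)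
  hD0 : ∀ C : Y.PD, 3 * D0 C = (C.dv.comap : DV k K).iB (B.pt 0) (B.pt 1)
  hD2 : ∀ C : Y.PD, 3 * D2 C = (C.dv.comap : DV k K).iB (B.pt 2) (B.pt 1)
  hV : ∀ C : Y.PD, V C = B.V (C.dv.comap : DV k K)
  hZ : ∀ (a : Fin 5) (C : Y.PD), a < 3 → Z a C = B.Z a (C.dv.comap : DV k K)
  degF : ∀ a : Fin 5, a < 3 → Y.degH (F a 3) = Y.degH (F a 4) ∧ 0 < Y.degH (F a 3)
  degZ : ∀ a : Fin 5, a < 3 → Y.degH (Z a) = 0

end HB.E2
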