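import Pool.Agent.HB.Bun

/-!
# HB-E2-Kae: the differentials of algebraically independent elements are independent

PLAN.  Let `x₀, x₁ ∈ K` be algebraically independent over `k` and `L / K` a field extension.  Then
`![x₀, x₁]` is algebraically independent in `L` (`AlgebraicIndependent.map'`, injectivity of
`algebraMap K L`).  Complete it to a transcendence basis `B` of `L / k`
(`exists_isTranscendenceBasis…`); in characteristic zero `L` is separable over `k(B)`, and the
derivations `∂/∂x₀`, `∂/∂x₁` of `k(B)` extend to `L`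
(in Mathlib: `Differential`/`Derivation.liftOfSurjective`…, `Algebra.FormallyEtale` of separable
algebraic extensions, `KaehlerDifferential` base change along formally étale maps
`KaehlerDifferential.isBaseChange…`, or `Algebra.IsSeparable` ⇒ `Subsingleton Ω[L⁄k(B)]` and the
exact sequence; see also `AlgebraicIndependent` + `KaehlerDifferential` / `Mathlib.RingTheory.Etale.Field`,
`Mathlib.RingTheory.Smooth.Field`, `MvRatFunc` …).  If `a dx₀ + b dx₁ = 0` in `Ω[L⁄k]`, apply the
linear forms given by these derivations (`Derivation.liftKaehlerDifferential`): `a = b = 0`.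
It is enough here to have derivations `d₀, d₁ : L → L` over `k` with `d_i x_j = δ_ij`.
Conversely any other proof of the linear independence of `D x₀, D x₁` in `Ω[L⁄k]` is fine
(search Mathlib for `AlgebraicIndependent` in the files about Kähler differentials / Jacobian
criterion / `Algebra.trdeg` and `rank Ω`).
-/

set_option autoImplicit false

namespace HB.E2

open scoped TensorProduct

section

variable {k L : Type} [Field k] [CharZero k] [Field L] [Algebra k L] {ι : Type} {v : ι → L}

open scoped IntermediateField.algebraAdjoinAdjoin in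
private theorem kae_etale (hv : IsTranscendenceBasis k v) :
    Algebra.FormallyEtale (Algebra.adjoin k (Set.range v)) L := by
  have h1 : Algebra.IsAlgebraic (IntermediateField.adjoin k (Set.range v)) L := hv.isAlgebraic_field
  have h0 : CharZero (IntermediateField.adjoin k (Set.range v)) :=
    charZero_of_injective_algebraMap
      (algebraMap k (IntermediateField.adjoin k (Set.range v))).injective
  have h2 : Algebra.IsSeparable (IntermediateField.adjoin k (Set.range v)) L := inferInstance
  have h3 : Algebra.FormallyEtale (IntermediateField.adjoin k (Set.range v)) L :=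
    Algebra.FormallyEtale.of_isSeparable _ L
  have h4 : Algebra.FormallyEtale (Algebra.adjoin k (Set.range v))
      (IntermediateField.adjoin k (Set.range v)) :=
    Algebra.FormallyEtale.of_isLocalization (nonZeroDivisors _)
  exact Algebra.FormallyEtale.comp _ (IntermediateField.adjoin k (Set.range v)) _

omit [CharZero k] in
/-- extension of a derivation along a formally etale map -/
private theorem kae_ext (S : Type) [CommRing S] [Algebra k S] [Algebra S L]
    [IsScalarTower k S L] [Algebra.FormallyEtale S L] (d : Derivation k S L) :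
    ∃ D : Derivation k L L, ∀ s : S, D (algebraMap S L s) = d s := by
  refine ⟨(((LinearMap.liftBaseChange L d.liftKaehlerDifferential) ∘ₗ
    (KaehlerDifferential.tensorKaehlerEquivOfFormallyEtale k S L).symm.toLinearMap)).compDer
      (KaehlerDifferential.D k L), fun s => ?_⟩
  change (LinearMap.liftBaseChange L d.liftKaehlerDifferential)
    ((KaehlerDifferential.tensorKaehlerEquivOfFormallyEtale k S L).symm
      (KaehlerDifferential.D k L (algebraMap S L s))) = d s
  rw [KaehlerDifferential.tensorKaehlerEquivOfFormallyEtale_symm_D_algebraMap,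
    LinearMap.liftBaseChange_tmul, one_smul, Derivation.liftKaehlerDifferential_comp_D]

omit [CharZero k] in
/-- the partial derivatives on the subalgebra generated by algebraically independent elements -/
private theorem kae_part (hv : AlgebraicIndependent k v) (i : ι) :
    ∃ d : Derivation k (Algebra.adjoin k (Set.range v)) L, ∀ j (hj : v j ∈
      Algebra.adjoin k (Set.range v)), (i = j → d ⟨v j, hj⟩ = 1) ∧ (i ≠ j → d ⟨v j, hj⟩ = 0) := by
  classical
  let e := hv.aevalEquiv
  let D : Derivation k (Algebra.adjoin k (Set.range v)) (Algebra.adjoin k (Set.range v)) :=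
    Derivation.mk'
      ((e.toLinearMap ∘ₗ (MvPolynomial.pderiv i).toLinearMap) ∘ₗ e.symm.toLinearMap) (by
        intro a b
        change e (MvPolynomial.pderiv i (e.symm (a * b))) =
          a • e (MvPolynomial.pderiv i (e.symm b)) + b • e (MvPolynomial.pderiv i (e.symm a))
        rw [map_mul, Derivation.leibniz, map_add, smul_eq_mul, smul_eq_mul, map_mul, map_mul,
          e.apply_symm_apply, e.apply_symm_apply, smul_eq_mul, smul_eq_mul])
  refine ⟨(Algebra.linearMap (Algebra.adjoin k (Set.range v)) L).compDer D, fun j hj => ?_⟩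
  have h1 : e.symm ⟨v j, hj⟩ = MvPolynomial.X j := by
    rw [AlgEquiv.symm_apply_eq]
    apply Subtype.ext
    rw [AlgebraicIndependent.aevalEquiv_apply_coe, MvPolynomial.aeval_X]
  have h2 : (Algebra.linearMap (Algebra.adjoin k (Set.range v)) L).compDer D ⟨v j, hj⟩ =
      algebraMap (Algebra.adjoin k (Set.range v)) L (e (MvPolynomial.pderiv i (MvPolynomial.X j))) := by
    rw [← h1]
    rfl
  rw [h2, MvPolynomial.pderiv_X]
  constructor
  · rintro rfl
    rw [Pi.single_eq_same, map_one, map_one]
  · intro hij
    rw [Pi.single_eq_of_ne (Ne.symm hij), map_zero, map_zero]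

private theorem kae_all (hv : IsTranscendenceBasis k v) (i : ι) :
    ∃ D : Derivation k L L, ∀ j, (i = j → D (v j) = 1) ∧ (i ≠ j → D (v j) = 0) := by
  obtain ⟨d, hd⟩ := kae_part hv.1 i
  have := kae_etale hv
  obtain ⟨D, hD⟩ := kae_ext (Algebra.adjoin k (Set.range v)) d
  refine ⟨D, fun j => ?_⟩
  have hj : v j ∈ Algebra.adjoin k (Set.range v) := Algebra.subset_adjoin ⟨j, rfl⟩
  have h1 : D (v j) = d ⟨v j, hj⟩ := hD ⟨v j, hj⟩
  rw [h1]
  exact hd j hj

private theorem kae_der (x₀ x₁ : L) (h : AlgebraicIndependent k ![x₀, x₁]) :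
    ∃ d₀ d₁ : Derivation k L L, d₀ x₀ = 1 ∧ d₀ x₁ = 0 ∧ d₁ x₀ = 0 ∧ d₁ x₁ = 1 := by
  obtain ⟨t, hst, ht⟩ := exists_isTranscendenceBasis_superset (s := Set.range ![x₀, x₁])
    h.coe_range
  have hp : x₀ ∈ t := hst ⟨0, rfl⟩
  have hq : x₁ ∈ t := hst ⟨1, rfl⟩
  have hpq : x₀ ≠ x₁ := by
    intro hpq
    have h1 : (0 : Fin 2) = 1 := h.injective (by simpa using hpq)
    exact absurd h1 (by decide)
  obtain ⟨D₁, h₁⟩ := kae_all ht ⟨x₀, hp⟩
  obtain ⟨D₂, h₂⟩ := kae_all ht ⟨x₁, hq⟩
  refine ⟨D₁, D₂, ?_, ?_, ?_, ?_⟩
  · exact (h₁ ⟨x₀, hp⟩).1 rfl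
  · exact (h₁ ⟨x₁, hq⟩).2 fun h => hpq (congrArg Subtype.val h)
  · exact (h₂ ⟨x₀, hp⟩).2 fun h => hpq (congrArg Subtype.val h).symm
  · exact (h₂ ⟨x₁, hq⟩).1 rfl

end

variable {k L : Type} [Field k] [CharZero k] [Field L] [Algebra k L]

theorem linearIndependent_D (x₀ x₁ : L) (h : AlgebraicIndependent k ![x₀, x₁]) :
    LinearIndependent L ![KaehlerDifferential.D k L x₀, KaehlerDifferential.D k L x₁] := by
  obtain ⟨d₀, d₁, h00, h01, h10, h11⟩ := kae_der x₀ x₁ h
  rw [LinearIndependent.pair_iff]
  intro a b hab
  have h0 := congrArg d₀.liftKaehlerDifferential hab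
  have h1 := congrArg d₁.liftKaehlerDifferential hab
  rw [map_add, map_smul, map_smul, Derivation.liftKaehlerDifferential_comp_D,
    Derivation.liftKaehlerDifferential_comp_D, map_zero, h00, h01, smul_eq_mul, smul_eq_mul,
    mul_one, mul_zero, add_zero] at h0
  rw [map_add, map_smul, map_smul, Derivation.liftKaehlerDifferential_comp_D,
    Derivation.liftKaehlerDifferential_comp_D, map_zero, h10, h11, smul_eq_mul, smul_eq_mul,
    mul_one, mul_zero, zero_add] at h1
  exact ⟨h0, h1⟩

theorem exists_derivation (x₀ x₁ : L) (h : AlgebraicIndependent k ![x₀, x₁]) :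
    ∃ d₀ d₁ : Derivation k L L, d₀ x₀ = 1 ∧ d₀ x₁ = 0 ∧ d₁ x₀ = 0 ∧ d₁ x₁ = 1 :=
  kae_der x₀ x₁ h

end HB.E2
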