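import Pool.Agent.HB.E.Final
import Pool.Agent.HB.A.Dv
import Pool.Agent.HB.A.FacB
import Pool.Agent.HB.A.DegA
import Pool.Agent.HB.A.DegB

/-!
# HB-E2-Theory: part A gives everything that the abstract stability theorem needs

PLAN.  `dv`: `mul` is `PD.ord_mul`, `mem` is `PD.mem_iff`, `unif` from `PD.exists_ord_eq C 1`.
`fin` is `finite_ord_ne_zero`, `degH_add`, `degH_isDiv`, `degH_single_pos` are in `A/DegA`, `A/DegB`.
-/

set_option autoImplicit false

namespace HB.E2

variable {k L : Type} [Field k] [CharZero k] [IsAlgClosed k] [Field L] [Algebra k L]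

theorem degTheory {Y : Surf k L} (hY : Y.Smooth) : HB.E.DegTheory Y where
  dv C :=
    { mul := fun _ _ hx hy => ordS_mul _ hx hy
      mem := fun _ hx => mem_iff_ordS _ hx
      unif := by
        obtain ⟨π, h1, h2⟩ := exists_ordS_eq C.1.toSubring 1
        exact ⟨π, h1, h2⟩ }
  fin _ hx := Surf.finite_ord_ne_zero hx
  degH_add D D' := Surf.degH_add hY D D'
  degH_div _ _ h := Surf.degH_isDiv hY h
  degH_pos C := Surf.degH_single_pos hY C

theorem infinite_of (k L : Type) [Field k] [CharZero k] [Field L] [Algebra k L] : Infinite L := by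
  have : CharZero L := charZero_of_injective_algebraMap (algebraMap k L).injective
  infer_instance

end HB.E2
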