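import Pool.Agent.HB.E2.Iface
import Pool.Agent.HB.E2.Theory
import Pool.Agent.HB.E2.Kae

/-!
# HB-E2-Stab: stability of all pull-backs (assembly)
-/

set_option autoImplicit false

open scoped Matrix

namespace HB.E2

open Surf

variable {k K L : Type} [Field k] [CharZero k] [IsAlgClosed k] [Field K] [Field L] [Algebra k K]
  [Algebra k L] [Algebra K L] [IsScalarTower k K L]

theorem fr_map (n u : Fin 5 → K) (δ0 δ2 : K) :
    (fr n u δ0 δ2).map (algebraMap K L) =
      fr (fun i => algebraMap K L (n i)) (fun i => algebraMap K L (u i)) (algebraMap K L δ0)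
        (algebraMap K L δ2) := by
  ext i j
  fin_cases j <;> simp [fr]

theorem below_of {X : Surf k K} {Y : Surf k L} (C : Y.PD) (Q : Y.Pt) (hQ : On Q C) (P : X.Pt)
    (hP : Dom Q P) : Below (C.dv.comap : DV k K) P := by
  intro a ha
  have h := le_valBelow C Q hQ P hP ha
  have h2 : algebraMap K L a ∈ C.1.toSubring := h
  rcases (C.dv_ge_zero _).2 h2 with h3 | h3
  · exact Or.inl ((map_eq_zero _).1 h3)
  · exact Or.inr h3

/-- The local data at `C`. -/
noncomputable def locOf {X : Surf k K} (B : BData X) {Y : Surf k L} (C : Y.PD) (Q : Y.Pt)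
    (hQ : On Q C) (P : X.Pt) (hP : Dom Q P) :
    HB.E.LocalAt C.1.toSubring C.ord (atDiv (pull Y B.E.E) C : Set (Fin 5 → L)) where
  n i := algebraMap K L (B.n P i)
  u i := algebraMap K L (B.u P i)
  δ0 := algebraMap K L (B.δ0 P)
  δ2 := algebraMap K L (B.δ2 P)
  n_ne i := (map_ne_zero _).2 (B.n_ne P i)
  u_mem i := le_valBelow C Q hQ P hP (B.u_mem P i)
  u_inj := (algebraMap K L).injective.comp (B.u_inj P)
  δ0_ne := (map_ne_zero _).2 (B.δ0_ne P)
  δ2_ne := (map_ne_zero _).2 (B.δ2_ne P)
  δ0_mem := le_valBelow C Q hQ P hP (B.δ0_mem P)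
  δ2_mem := le_valBelow C Q hQ P hP (B.δ2_mem P)
  v01 := by
    have hb := below_of C Q hQ P hP
    have h1 := B.vu P _ hb 0 1 (by decide)
    have h2 := B.vδ0 P _ hb
    rw [← map_sub]
    change (C.dv.comap : DV k K).v (B.u P 0 - B.u P 1) = 3 * (C.dv.comap : DV k K).v (B.δ0 P)
    rw [h1, h2]
  v21 := by
    have hb := below_of C Q hQ P hP
    have h1 := B.vu P _ hb 2 1 (by decide)
    have h2 := B.vδ2 P _ hb
    rw [← map_sub]
    change (C.dv.comap : DV k K).v (B.u P 2 - B.u P 1) = 3 * (C.dv.comap : DV k K).v (B.δ2 P)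
    rw [h1, h2]
  v02 := by
    have hb := below_of C Q hQ P hP
    have h1 := B.vu P _ hb 0 2 (by decide)
    rw [← map_sub]
    change (C.dv.comap : DV k K).v (B.u P 0 - B.u P 2) = 0
    rw [h1, B.i02]
  v34 := by
    have hb := below_of C Q hQ P hP
    have h1 := B.vu P _ hb 3 4 (by decide)
    rw [← map_sub]
    change (C.dv.comap : DV k K).v (B.u P 3 - B.u P 4) = 0
    rw [h1, B.i34]
  mem_iff x := by
    rw [atDiv_pull B.E.E (fun P => fr (B.n P) (B.u P) (B.δ0 P) (B.δ2 P)) B.E_eq B.glue C Q P hQ hP,
      fr_map]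
    refine mem_latt_fr C.1.toSubring _ _ _ _ (fun i => le_valBelow C Q hQ P hP (B.u_mem P i))
      (le_valBelow C Q hQ P hP (B.δ0_mem P)) (le_valBelow C Q hQ P hP (B.δ2_mem P))
      ((map_ne_zero _).2 (B.δ0_ne P)) ((map_ne_zero _).2 (B.δ2_ne P)) ?_ ?_ x
    · intro h
      exact absurd (B.u_inj P ((algebraMap K L).injective h)) (by decide)
    · rw [← map_sub, ← map_inv₀]
      exact le_valBelow C Q hQ P hP (B.u02 P)

/-- The data for the abstract stability theorem. -/
noncomputable def stabData {X : Surf k K} (B : BData X) {Y : Surf k L} (hmor : IsMor Y X)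
    (F : DegFacts B Y) : HB.E.StabData Y (pull Y B.E.E) (pullΘ L B.θ) := by
  classical
  choose Q P hQ hP using fun C : Y.PD => exists_below hmor C
  have hli := linearIndependent_D (k := k) (L := L) (algebraMap K L (B.pt 0).x)
    (algebraMap K L (B.pt 1).x) (by
      have := B.indep.map' (f := IsScalarTower.toAlgHom k K L) (algebraMap K L).injective
      convert this using 1
      ext i
      fin_cases i <;> rfl)
  rw [LinearIndependent.pair_iff] at hli
  have hmapD : ∀ x : K, KaehlerDifferential.map k k K L (KaehlerDifferential.D k K x) =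
      KaehlerDifferential.D k L (algebraMap K L x) := fun x => KaehlerDifferential.map_D k k K L x
  have hl0 : KaehlerDifferential.map k k K L (B.lam 0) = (algebraMap K L (B.pt 0).y)⁻¹ •
      KaehlerDifferential.D k L (algebraMap K L (B.pt 0).x) := by
    rw [B.lam0, map_smul, hmapD, ← map_inv₀, algebraMap_smul]
  have hl1 : KaehlerDifferential.map k k K L (B.lam 1) = (algebraMap K L (B.pt 1).y)⁻¹ •
      KaehlerDifferential.D k L (algebraMap K L (B.pt 1).x) := by
    rw [B.lam1, map_smul, hmapD, ← map_inv₀, algebraMap_smul]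
  have hl2 : KaehlerDifferential.map k k K L (B.lam 2) = algebraMap k L B.z •
      KaehlerDifferential.map k k K L (B.lam 0) := by
    rw [B.lam2, map_smul, IsScalarTower.algebraMap_apply k K L]
    exact (algebraMap_smul L (algebraMap k K B.z) _).symm
  have hy0 : (algebraMap K L (B.pt 0).y)⁻¹ ≠ 0 := inv_ne_zero ((map_ne_zero _).2 B.y0)
  have hy1 : (algebraMap K L (B.pt 1).y)⁻¹ ≠ 0 := inv_ne_zero ((map_ne_zero _).2 B.y1)
  have hz0 : algebraMap k L B.z ≠ 0 := (map_ne_zero _).2 B.z0
  have hz1 : algebraMap k L B.z ≠ 1 := by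
    intro h
    apply B.z1
    apply (algebraMap k L).injective
    rw [h, map_one]
  exact
  { lam := fun i => KaehlerDifferential.map k k K L (B.lam i)
    hθ := by
      unfold pullΘ BData.θ
      ext i j
      by_cases h : i = j
      · subst h; simp
      · simp [Matrix.diagonal_apply_ne _ h]
    lam3 := by rw [B.lam3, map_zero]
    lam4 := by rw [B.lam4, map_zero]
    lam0 := by
      rw [hl0]
      intro h
      exact hy0 (hli _ 0 (by simpa using h)).1
    lam1 := by
      rw [hl1]
      intro h
      exact hy1 (hli 0 _ (by simpa using h)).2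
    lam2 := by
      rw [hl2, hl0, smul_smul]
      intro h
      exact mul_ne_zero hz0 hy0 (hli _ 0 (by simpa using h)).1
    lam01 := by
      rw [hl0, hl1]
      intro h
      exact hy0 (hli _ (-(algebraMap K L (B.pt 1).y)⁻¹) (by
        rw [neg_smul, h]; exact add_neg_cancel _)).1
    lam02 := by
      rw [hl2, hl0, smul_smul]
      intro h
      have := (hli ((algebraMap K L (B.pt 0).y)⁻¹ -
        algebraMap k L B.z * (algebraMap K L (B.pt 0).y)⁻¹) 0 (by
          rw [sub_smul, zero_smul, add_zero, h]; exact sub_self _)).1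
      have h2 : (1 - algebraMap k L B.z) * (algebraMap K L (B.pt 0).y)⁻¹ = 0 := by
        linear_combination this
      rcases mul_eq_zero.1 h2 with h3 | h3
      · exact hz1 (by linear_combination -h3)
      · exact hy0 h3
    lam12 := by
      rw [hl2, hl0, hl1, smul_smul]
      intro h
      exact hy1 (hli (-(algebraMap k L B.z * (algebraMap K L (B.pt 0).y)⁻¹)) _ (by
        rw [neg_smul, h]; exact neg_add_cancel _)).2
    F := F.F
    D0 := F.D0
    D2 := F.D2
    V := F.V
    Z := F.Z
    ρ := fun i => algebraMap K L (B.ρ i)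
    ρ_ne := fun i => (map_ne_zero _).2 (B.ρ_ne i)
    loc := fun C => locOf B C (Q C) (hQ C) (P C) (hP C)
    locF := by
      intro C a z ha hz
      rw [F.hF a z C ha hz]
      have hne : a ≠ z := by rintro rfl; exact absurd (lt_of_lt_of_le ha hz) (lt_irrefl _)
      have := B.vu (P C) _ (below_of C (Q C) (hQ C) (P C) (hP C)) a z hne
      rw [← this]
      change C.ord (algebraMap K L (B.u (P C) a) - algebraMap K L (B.u (P C) z)) = _
      rw [← map_sub]
      rfl
    locD0 := by
      intro C
      have h1 := B.vδ0 (P C) _ (below_of C (Q C) (hQ C) (P C) (hP C))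
      have h2 := F.hD0 C
      change (C.dv.comap : DV k K).v (B.δ0 (P C)) = _
      omega
    locD2 := by
      intro C
      have h1 := B.vδ2 (P C) _ (below_of C (Q C) (hQ C) (P C) (hP C))
      have h2 := F.hD2 C
      change (C.dv.comap : DV k K).v (B.δ2 (P C)) = _
      omega
    rel0 := by
      intro C
      have h1 := B.rel0 (P C) _ (below_of C (Q C) (hQ C) (P C) (hP C))
      have h2 := F.hD0 C
      have h3 := F.hF 0 3 C (by decide) (by decide)
      have h4 := F.hF 0 4 C (by decide) (by decide)
      have h5 := F.hV C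
      have h6 := F.hZ 0 C (by decide)
      change 3 * (C.dv.comap : DV k K).v (B.n (P C) 0) = (C.dv.comap : DV k K).v (B.ρ 0) - _
      rw [h1, h3, h4, h5, h6, ← h2]
      ring
    rel1 := by
      intro C
      have h1 := B.rel1 (P C) _ (below_of C (Q C) (hQ C) (P C) (hP C))
      have h2 := F.hD0 C
      have h2' := F.hD2 C
      have h3 := F.hF 1 3 C (by decide) (by decide)
      have h4 := F.hF 1 4 C (by decide) (by decide)
      have h5 := F.hV C
      have h6 := F.hZ 1 C (by decide)
      change 3 * (C.dv.comap : DV k K).v (B.n (P C) 1) = (C.dv.comap : DV k K).v (B.ρ 1) - _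
      rw [h1, h3, h4, h5, h6, ← h2, ← h2']
      ring
    rel2 := by
      intro C
      have h1 := B.rel2 (P C) _ (below_of C (Q C) (hQ C) (P C) (hP C))
      have h2 := F.hD2 C
      have h3 := F.hF 2 3 C (by decide) (by decide)
      have h4 := F.hF 2 4 C (by decide) (by decide)
      have h5 := F.hV C
      have h6 := F.hZ 2 C (by decide)
      change 3 * (C.dv.comap : DV k K).v (B.n (P C) 2) = (C.dv.comap : DV k K).v (B.ρ 2) - _
      rw [h1, h3, h4, h5, h6, ← h2]
      ring
    rel3 := by
      intro C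
      have h1 := B.rel3 (P C) _ (below_of C (Q C) (hQ C) (P C) (hP C))
      have h3 := F.hF 0 3 C (by decide) (by decide)
      have h4 := F.hF 1 3 C (by decide) (by decide)
      have h4' := F.hF 2 3 C (by decide) (by decide)
      have h5 := F.hV C
      change 3 * (C.dv.comap : DV k K).v (B.n (P C) 3) = (C.dv.comap : DV k K).v (B.ρ 3) - _
      rw [h1, h3, h4, h4', h5]
    rel4 := by
      intro C
      have h1 := B.rel4 (P C) _ (below_of C (Q C) (hQ C) (P C) (hP C))
      have h3 := F.hF 0 4 C (by decide) (by decide)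
      have h4 := F.hF 1 4 C (by decide) (by decide)
      have h4' := F.hF 2 4 C (by decide) (by decide)
      have h5 := F.hV C
      change 3 * (C.dv.comap : DV k K).v (B.n (P C) 4) = (C.dv.comap : DV k K).v (B.ρ 4) - _
      rw [h1, h3, h4, h4', h5]
    degF := F.degF
    degZ := F.degZ }

theorem stable_pull {X : Surf k K} (B : BData X) {Y : Surf k L} (hY : Y.Smooth)
    (hmor : IsMor Y X) (F : DegFacts B Y) : Stable Y (pull Y B.E.E) (pullΘ L B.θ) := by
  have := infinite_of k L
  exact HB.E.stable_of_data (degTheory hY) (stabData B hmor F)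

theorem stable_self {X : Surf k K} (B : BData X) (hX : X.Smooth)
    (F : DegFacts (L := K) B X) : Stable X B.E.E B.θ := by
  have h := stable_pull B hX (isMor_self X) F
  rwa [pull_self B.E.E (fun P => fr (B.n P) (B.u P) (B.δ0 P) (B.δ2 P)) B.E_eq, pullΘ_self] at h

end HB.E2
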